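import Mathlib
import Pool.Agent.H503.Psi3
import Pool.Graph.R_seed8.Y700.VC

/-!
# Beilinson's conjecture for the triple products of the CM forms `θ(ψ χ)` of weight two and ALL pairs of
# eigenforms of weight one inside the Galois 2-extensions of `ℚ(√-3)` and of `ℚ(ζ₉)`

Let `K = ℚ(√-3)`, let `F₀` be `K` or `ℚ(ζ₉)`, and let `L/F₀` be ANY Galois extension of 2-power degree in
which above the primes other than three only primes ramify modulo which `2` is not a cube.  Let
`F ⊆ L` be a field which contains `K` and is Galois over `ℚ`.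

The forms `f`.  Let `E : y² + y = x³`, let `ψ` be the Hecke character of `K` with
`L(E/ℚ, s) = L(ψ, s)`, and let `χ` be ANY character of `Gal(F/K)`.  The theta series
`f = f_χ = ∑ (ψ χ)(𝔞) q^(N 𝔞)` is a newform of weight two; for `χ = 1` it is the newform of level `27`, and in
general its coefficients generate fields of unbounded degree and its character `χ_f` is not trivial.  The
`f_χ` are exactly the newforms `f` of weight two for which `V_f` restricted to the Galois group of `F` is
isomorphic to `V_ℓ(E)`.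

The forms `g`, `h`.  These are ANY eigenforms of weight one, cuspidal or Eisenstein series, whose Artin
representations `ρ_g`, `ρ_h` are trivial on the Galois group of `F`.  For `F₀ = K` the group `Gal(F/ℚ)` is a
2-group, in general not metabelian, and the cuspidal forms are dihedral, for real and for imaginary
quadratic fields.  For `F₀ = ℚ(ζ₉)` also tetrahedral forms are included: for example there is an
`A₄`-extension of `ℚ` with the cubic subfield `ℚ(cos (2π/9))` which is ramified only at `3` and `19` and not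
real; it gives tetrahedral forms `g` (after a twist, `ρ_g` has an image of order `3 · 2ⁿ`).

The `L`-function.  `V_f` is induced from `ψ χ`, so `L(f ⊗ g ⊗ h, s)` is the `L`-function of
`ψ ⊗ χ ⊗ ρ_g ⊗ ρ_h` over `K`: the Euler product over the primes `u` of `K` of
`det(1 - ψ(u) N(u)^(-s) A)⁻¹`, where `A` is the average of the matrices `χ(σ) (ρ_g(σ) ⊗ ρ_h(σ))` over the
Frobenius elements `σ` at a prime of `F` above `u`: it is the matrix of the Frobenius element on the
invariants of the inertia group, and zero on a complement.  The prime above three has the factor `1`,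
since `E` has additive reduction at the primes of `F` above three (the inertia groups of these have no
invariants in `V_f` and act trivially on `V_gh`).  For `u` not dividing three, `ψ(u)` is the image in `ℂ` of
the Frobenius endomorphism `π` of `E` modulo `u` in `End(E) = ℤ[ω]`, `ω (x, y) = (z x, y)`: the element of
norm `N(u)` and trace `N(u) + 1 - #E(𝓞 K / u)` which is zero modulo `u` under `ω ↦ z`.

The cycles.  For weight two, `CH¹(X_1(N)/H)_0` is the group of the points of the Jacobian over `H`, and its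
part `f` comes from the abelian variety `A_f`.  The `f`-part of `A_f(F) ⊗ ℂ` is induced, as a representation
of `Gal(F/ℚ)`, from the representation `W_χ` of `Gal(F/K)` on the `ω`-eigenspace of `E(F) ⊗ ℂ` (the vectors on
which `[ω]` acts as the complex number `ω`) with the action of `σ` multiplied by `χ(σ)`.  So
`Hom(V_gh, f-part)` is the space of the linear maps `T` from `V_gh` to `E(F) ⊗ ℂ` with
`T(ρ_gh(σ) v) = χ(σ) σ(T(v))` for `σ` in `Gal(F/K)` and `[ω] T(v) = ω T(v)`.  (It is the same for `F` and for the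
field `H` of `V_gh`.)

Theorem: the Euler product of `L(f ⊗ g ⊗ h, s)` continues analytically from `Re s > 3/2` to a connected open
set containing the centre `s = 1` (to `ℂ` if `Gal(F/K)` is a 2-group, which is always so for `F₀ = K`), and
Beilinson's equality holds, with both sides equal to zero.  The condition `χ_f χ_g χ_h = 1` is not needed.

This extends the theorem `ThetaSeriesPairs` of the starting library, which is about `f` of level `27` only,
and about pairs `g`, `h` for which `F/K` is abelian and unramified at three.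

The proof.  We continue the work of the project AW of the starting library (`Pool.Agent.K7.H70.AW`, by
helper70 and others, on `L(E/K, ρ, s)`): the Euler products of `ψ` alone times an arbitrary representation
are continued by Artin induction, and their value at `1` is a factor of a value which is not zero.
-/

set_option autoImplicit false

open NumberField IsDedekindDomain WeierstrassCurve
open scoped Classical TensorProduct Kronecker Matrix

namespace Pool.Agent.Results.MP_60ff09_nt.CMFormsWeightOnePairs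

/-- Above the prime numbers other than three, only primes modulo which `2` is not a cube ramify in
`L/F₀`: if `σ ≠ 1` lies in the inertia group of the prime `w` of `L`, and `w` does not divide three, then
`2` is not a cube modulo the prime of `F₀` below `w`. -/
def GoodRam (F₀ L : Type) [Field F₀] [NumberField F₀] [Field L] [NumberField L] [Algebra F₀ L] :
    Prop :=
  ∀ (w : HeightOneSpectrum (𝓞 L)) (σ : Gal(L/F₀)), (3 : 𝓞 L) ∉ w.asIdeal →
    (∀ x : 𝓞 L, σ • x - x ∈ w.asIdeal) → σ ≠ 1 → ∀ α : 𝓞 F₀, α ^ 3 - 2 ∉ w.asIdeal.under (𝓞 F₀)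

/-! ### The Hecke character -/

section defs

variable {K : Type} [Field K] [NumberField K]

/-- The number of the elements of the residue field of `u`. -/
noncomputable def nm (u : HeightOneSpectrum (𝓞 K)) : ℕ := Nat.card (𝓞 K ⧸ u.asIdeal)

/-- The number of the affine points of `E : y² + y = x³` over the residue field of `u`. -/
noncomputable def pts (u : HeightOneSpectrum (𝓞 K)) : ℕ :=
  Nat.card {p : (𝓞 K ⧸ u.asIdeal) × (𝓞 K ⧸ u.asIdeal) // p.2 ^ 2 + p.2 = p.1 ^ 3}

/-- The ring `ℤ[ω]` with `ω² = -1 - ω`; the element `⟨a, b⟩` is `a + b ω`. -/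
abbrev Eis : Type := QuadraticAlgebra ℤ (-1) (-1)

/-- The complex number `ω = (-1 + √3 i) / 2`. -/
noncomputable def om : ℂ := ⟨-1 / 2, Real.sqrt 3 / 2⟩

/-- The image of `a + b ω` in `ℂ`. -/
noncomputable def toComplex (x : Eis) : ℂ := x.re + x.im * om

/-- `π` is the Frobenius endomorphism of `E` modulo `u`, an element of `ℤ[ω]`: its norm is `N(u)`, its
trace is `N(u) + 1 - #E(𝓞 K / u)`, and it is zero modulo `u` under `ω ↦ z`. -/
def IsFrobEnd (z : 𝓞 K) (u : HeightOneSpectrum (𝓞 K)) (π : Eis) : Prop :=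
  π.re ^ 2 - π.re * π.im + π.im ^ 2 = nm u ∧ 2 * π.re - π.im = (nm u : ℤ) - pts u ∧
    (π.re : 𝓞 K) + π.im * z ∈ u.asIdeal

/-! ### The `L`-function -/

variable {F : Type} [Field F] [NumberField F] [Algebra K F]

/-- `w u` is a prime of `F` above `u`, for all the primes `u` of `K`. -/
def Above (w : HeightOneSpectrum (𝓞 K) → HeightOneSpectrum (𝓞 F)) : Prop :=
  ∀ u, (w u).asIdeal.comap (algebraMap (𝓞 K) (𝓞 F)) = u.asIdeal

/-- `σ` is a Frobenius element at the prime `w` of `F` above `u`: `σ x ≡ x ^ N(u)` modulo `w`. -/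
def IsFrobenius (u : HeightOneSpectrum (𝓞 K)) (w : HeightOneSpectrum (𝓞 F)) (σ : Gal(F/K)) : Prop :=
  ∀ x : 𝓞 F, σ • x - x ^ nm u ∈ w.asIdeal

/-- The element `σ` of `Gal(F/K)` as an element of `Gal(F/ℚ)`. -/
def overQ (σ : Gal(F/K)) : Gal(F/ℚ) := σ.restrictScalars ℚ

/-- The tensor product of two matrices. -/
def tensor (A B : Matrix (Fin 2) (Fin 2) ℂ) : Matrix (Fin 2 × Fin 2) (Fin 2 × Fin 2) ℂ :=
  Matrix.of fun i j => A i.1 j.1 * B i.2 j.2

/-- A two-dimensional complex representation of `Gal(F/ℚ)`. -/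
abbrev Rep (F : Type) [Field F] [NumberField F] : Type := Gal(F/ℚ) →* GL (Fin 2) ℂ

/-- The matrix of `σ` in the representation `ρ`. -/
def mat (ρ : Rep F) (σ : Gal(F/ℚ)) : Matrix (Fin 2) (Fin 2) ℂ := (ρ σ).val

/-- The matrix `ρ_g(σ) ⊗ ρ_h(σ)` of `σ` on `V_gh`. -/
def gh (ρg ρh : Rep F) (σ : Gal(F/K)) :
    Matrix (Fin 2 × Fin 2) (Fin 2 × Fin 2) ℂ := tensor (mat ρg (overQ σ)) (mat ρh (overQ σ))

/-- The average of the matrices `χ(σ) M(σ)` over the Frobenius elements `σ` at `w`. -/
noncomputable def frob {n : Type} (χ : Gal(F/K) →* ℂˣ) (M : Gal(F/K) → Matrix n n ℂ)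
    (u : HeightOneSpectrum (𝓞 K)) (w : HeightOneSpectrum (𝓞 F)) : Matrix n n ℂ :=
  (Nat.card {σ : Gal(F/K) // IsFrobenius u w σ} : ℂ)⁻¹ •
    ∑ σ : {σ : Gal(F/K) // IsFrobenius u w σ}, (χ σ.1).val • M σ.1

/-- `det(1 - c A)⁻¹`. -/
noncomputable def invDet (c : ℂ) (A : Matrix (Fin 2 × Fin 2) (Fin 2 × Fin 2) ℂ) : ℂ :=
  (Matrix.det (1 - c • A))⁻¹

/-- The local factor of `L(f ⊗ g ⊗ h, s)` at `u`: `1` if `u` divides three, and
`det(1 - ψ(u) N(u)^(-s) A)⁻¹`, otherwise, where `A` is the average of `χ(σ) (ρ_g(σ) ⊗ ρ_h(σ))` over the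
Frobenius elements `σ` at `w u`. -/
noncomputable def factor (χ : Gal(F/K) →* ℂˣ) (ρg ρh : Rep F)
    (w : HeightOneSpectrum (𝓞 K) → HeightOneSpectrum (𝓞 F)) (π : HeightOneSpectrum (𝓞 K) → Eis)
    (u : HeightOneSpectrum (𝓞 K)) (s : ℂ) : ℂ :=
  if (3 : 𝓞 K) ∈ u.asIdeal then 1 else
    invDet (toComplex (π u) * (nm u : ℂ) ^ (-s)) (frob χ (gh ρg ρh) u (w u))

/-- `U` is a connected open set which contains `1` and the half plane `Re s > 3/2`. -/
def Region (U : Set ℂ) : Prop :=
  IsOpen U ∧ IsConnected U ∧ {s : ℂ | (3 / 2 : ℝ) < s.re} ⊆ U ∧ (1 : ℂ) ∈ U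

/-- `Φ` is the function `L(f ⊗ g ⊗ h, s)`: it is analytic on `U` and equal to the Euler product for
`Re s > 3/2`. -/
def IsLFunction (χ : Gal(F/K) →* ℂˣ) (ρg ρh : Rep F)
    (w : HeightOneSpectrum (𝓞 K) → HeightOneSpectrum (𝓞 F)) (π : HeightOneSpectrum (𝓞 K) → Eis)
    (U : Set ℂ) (Φ : ℂ → ℂ) : Prop :=
  AnalyticOnNhd ℂ Φ U ∧ ∀ s : ℂ, (3 / 2 : ℝ) < s.re →
    HasProd (fun u : HeightOneSpectrum (𝓞 K) => factor χ ρg ρh w π u s) (Φ s)

end defs

/-! ### The points -/

/-- The equation `y² + y = x³` of `E` over `ℤ`. -/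
def base : WeierstrassCurve ℤ := ⟨0, 0, 1, 0, 0⟩

/-- The group `E(F)`. -/
abbrev Pt (F : Type) [Field F] : Type := (base.map (Int.castRingHom F)).toAffine.Point

/-- The action of an automorphism of `F` on `E(F)`. -/
noncomputable def act {K F : Type} [Field K] [Field F] [Algebra K F] (σ : Gal(F/K)) : Pt F →+ Pt F :=
  Affine.Point.map (W' := base.toAffine) (S := ℤ) (σ : F →+* F).toIntAlgHom

theorem cube_eq {F : Type} [Field F] {z : F} (hz : z * z = -1 - z) : z ^ 3 = 1 := by
  linear_combination (z - 1) * hz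

theorem nonsingular_omega {F : Type} [Field F] {z : F} (hz : z * z = -1 - z) {x y : F}
    (h : (base.map (Int.castRingHom F)).toAffine.Nonsingular x y) :
    (base.map (Int.castRingHom F)).toAffine.Nonsingular (z * x) y := by
  have h3 := cube_eq hz
  rw [Affine.nonsingular_iff, Affine.equation_iff] at h ⊢
  simp only [base, WeierstrassCurve.map, map_zero, map_one, zero_mul, mul_zero, add_zero, sub_zero,
    one_mul] at h ⊢
  obtain ⟨h1, h2⟩ := h
  refine ⟨by linear_combination h1 - x ^ 3 * h3, ?_⟩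
  rcases h2 with h2 | h2
  · left
    intro h4
    apply h2
    linear_combination z * h4 + 3 * x ^ 2 * h3
  · exact Or.inr h2

/-- The map `(x, y) ↦ (z x, y)` from `E(F)` to `E(F)`, for a cube root of unity `z`. -/
def omegaFun {F : Type} [Field F] {z : F} (hz : z * z = -1 - z) : Pt F → Pt F
  | .zero => .zero
  | .some x y h => .some (z * x) y (nonsingular_omega hz h)

theorem vr_omega {F : Type} [Field F] {z : F} (hz : z * z = -1 - z) :
    Pool.Agent.Y700.VR (base.map (Int.castRingHom F)) (base.map (Int.castRingHom F))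
      (z ^ 2) 0 0 0 := by
  have h3 := cube_eq hz
  refine ⟨?_, ?_, ?_, ?_, ?_, ?_⟩
  · intro h
    have : z = 0 := pow_eq_zero_iff two_ne_zero |>.1 h
    rw [this] at h3
    norm_num at h3
  all_goals simp only [base, WeierstrassCurve.map, map_zero, map_one]
  · ring
  · ring
  · linear_combination (z ^ 3 + 1) * h3
  · ring
  · ring

theorem base_delta (F : Type) [Field F] [CharZero F] : (base.map (Int.castRingHom F)).Δ ≠ 0 := by
  rw [WeierstrassCurve.map_Δ]
  have : base.Δ = -27 := by
    simp [base, WeierstrassCurve.Δ, WeierstrassCurve.b₂, WeierstrassCurve.b₄, WeierstrassCurve.b₆,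
      WeierstrassCurve.b₈]
  rw [this]
  simp

theorem omegaFun_eq {F : Type} [Field F] [CharZero F] {z : F} (hz : z * z = -1 - z) (P : Pt F) :
    omegaFun hz P = (vr_omega hz).fn (base_delta F) P := by
  match P with
  | .zero => rfl
  | .some x y h =>
    show Affine.Point.some (z * x) y _ = Affine.Point.some _ _ _
    have h3 := cube_eq hz
    have e1 : z * x = (z ^ 2) ^ 2 * x + 0 := by linear_combination -z * x * h3
    have e2 : y = (z ^ 2) ^ 3 * y + (z ^ 2) ^ 2 * 0 * x + 0 := by
      linear_combination -y * (z ^ 3 + 1) * h3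
    congr 1

/-- The endomorphism `[ω] : (x, y) ↦ (z x, y)` of the group `E(F)`. -/
noncomputable def omega {F : Type} [Field F] [CharZero F] {z : F} (hz : z * z = -1 - z) :
    Pt F →+ Pt F where
  toFun := omegaFun hz
  map_zero' := rfl
  map_add' P Q := by
    rw [omegaFun_eq, omegaFun_eq, omegaFun_eq]
    exact (vr_omega hz).fn_add (base_delta F) P Q

/-- The complex vector space `E(F) ⊗ ℂ`. -/
def MW (F : Type) [Field F] : Type := ℂ ⊗[ℤ] Pt F

noncomputable instance (F : Type) [Field F] : AddCommGroup (MW F) :=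
  inferInstanceAs (AddCommGroup (ℂ ⊗[ℤ] Pt F))

noncomputable instance (F : Type) [Field F] : Module ℂ (MW F) :=
  inferInstanceAs (Module ℂ (ℂ ⊗[ℤ] Pt F))

/-- The linear map on `E(F) ⊗ ℂ` given by an endomorphism of the abelian group `E(F)`. -/
noncomputable def cplx {F : Type} [Field F] (f : Pt F →+ Pt F) : MW F →ₗ[ℂ] MW F :=
  LinearMap.baseChange ℂ f.toIntLinearMap

section hom

variable {G V W : Type} [AddCommGroup V] [Module ℂ V] [AddCommGroup W] [Module ℂ W]

/-- `T` is a homomorphism from `V` to the `ω`-eigenspace of `t` in `W`: it is a linear map from `V` to `W`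
with `T(ρ(σ) v) = c(σ) α(σ)(T(v))` for all `σ` and `t(T(v)) = ω T(v)`. -/
def IsHom (c : G → ℂ) (ρ : G → V →ₗ[ℂ] V) (α : G → W →ₗ[ℂ] W) (t : W →ₗ[ℂ] W) (T : V →ₗ[ℂ] W) :
    Prop := (∀ (σ : G) (v : V), T (ρ σ v) = c σ • α σ (T v)) ∧ ∀ v : V, t (T v) = om • T v

/-- The space of these homomorphisms. -/
def homs (c : G → ℂ) (ρ : G → V →ₗ[ℂ] V) (α : G → W →ₗ[ℂ] W) (t : W →ₗ[ℂ] W) :
    Submodule ℂ (V →ₗ[ℂ] W) where
  carrier := {T | IsHom c ρ α t T}
  zero_mem' := ⟨fun σ v => by simp, fun v => by simp⟩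
  add_mem' := by
    intro a b ha hb
    exact ⟨fun σ v => by
      rw [LinearMap.add_apply, LinearMap.add_apply, map_add, smul_add, ha.1 σ v, hb.1 σ v], fun v => by
      rw [LinearMap.add_apply, map_add, smul_add, ha.2 v, hb.2 v]⟩
  smul_mem' := by
    intro c' a h
    exact ⟨fun σ v => by
      rw [LinearMap.smul_apply, LinearMap.smul_apply, h.1 σ v, map_smul, smul_comm], fun v => by
      rw [LinearMap.smul_apply, map_smul, h.2 v, smul_comm]⟩

/-- The dimension of this space. -/
noncomputable def dimHoms (c : G → ℂ) (ρ : G → V →ₗ[ℂ] V) (α : G → W →ₗ[ℂ] W) (t : W →ₗ[ℂ] W) : ℕ :=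
  Module.finrank ℂ (homs c ρ α t)

end hom

section dim

variable {K F : Type} [Field K] [NumberField K] [Field F] [NumberField F] [Algebra K F]

theorem image_z {z : 𝓞 K} (hz : z * z = -1 - z) :
    algebraMap K F z * algebraMap K F z = -1 - algebraMap K F z := by
  have h := congrArg (fun t : 𝓞 K => algebraMap K F (t : K)) hz
  simpa using h

/-- The action of `σ` on `V_gh = ℂ² ⊗ ℂ²` by the matrix `ρ_g(σ) ⊗ ρ_h(σ)`. -/
noncomputable def ghLin (ρg ρh : Rep F) (σ : Gal(F/K)) :
    (Fin 2 × Fin 2 → ℂ) →ₗ[ℂ] (Fin 2 × Fin 2 → ℂ) := Matrix.mulVecLin (gh ρg ρh σ)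

/-- The dimension of `Hom(V_gh, f-part of the Mordell–Weil group)`, the space of the linear maps `T` from
`V_gh` to `E(F) ⊗ ℂ` with `T(ρ_gh(σ) v) = χ(σ) σ(T(v))` for all `σ` in `Gal(F/K)` and
`[ω] T(v) = ω T(v)`. -/
noncomputable def dimHom {z : 𝓞 K} (hz : z * z = -1 - z) (χ : Gal(F/K) →* ℂˣ)
    (ρg ρh : Rep F) : ℕ :=
  dimHoms (fun σ => (χ σ).val) (ghLin ρg ρh) (fun σ => cplx (act σ)) (cplx (omega (image_z hz)))

/-- Beilinson's equality for `(f, g, h)`, with both sides zero: `L(f ⊗ g ⊗ h, s)` continues analytically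
from `Re s > 3/2` to a connected open set which contains `1`, and to `ℂ` if `Gal(F/K)` is a 2-group; its
order at `1` is the dimension of `Hom(V_gh, f-part)`, and both are zero. -/
def Beilinson {z : 𝓞 K} (hz : z * z = -1 - z) (χ : Gal(F/K) →* ℂˣ)
    (ρg ρh : Rep F)
    (w : HeightOneSpectrum (𝓞 K) → HeightOneSpectrum (𝓞 F)) (π : HeightOneSpectrum (𝓞 K) → Eis) :
    Prop :=
  ∃ (U : Set ℂ) (Φ : ℂ → ℂ), Region U ∧ (IsPGroup 2 Gal(F/K) → U = Set.univ) ∧
    IsLFunction χ ρg ρh w π U Φ ∧ analyticOrderAt Φ 1 = dimHom hz χ ρg ρh ∧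
    analyticOrderAt Φ 1 = 0

end dim

/-! ### The proof -/

theorem toComplex_eq (x : Eis) : toComplex x = Pool.Agent.Y692.QS.toC x := by
  rw [Pool.Agent.Y692.QS.toC_apply]
  rfl

theorem base_eq (F : Type) [Field F] : base.map (Int.castRingHom F) = Pool.Agent.Y696.E0 F := by
  unfold base Pool.Agent.Y696.E0 WeierstrassCurve.map
  simp

/-- a finite group becomes trivial after `⊗ ℂ` -/
theorem tensor_zero {A : Type} [AddCommGroup A] [Finite A] (x : ℂ ⊗[ℤ] A) : x = 0 := by
  induction x using TensorProduct.induction_on with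
  | zero => rfl
  | add x y hx hy => rw [hx, hy, add_zero]
  | tmul z a =>
    have hn : (Nat.card A : ℂ) ≠ 0 := Nat.cast_ne_zero.2 Nat.card_pos.ne'
    have h1 : (Nat.card A) • a = 0 := card_nsmul_eq_zero'
    have h2 : z = (Nat.card A : ℤ) • ((Nat.card A : ℂ)⁻¹ * z) := by
      rw [zsmul_eq_mul, Int.cast_natCast, mul_inv_cancel_left₀ hn]
    rw [h2, TensorProduct.smul_tmul, natCast_zsmul, h1, TensorProduct.tmul_zero]

section
variable {K F : Type} [Field K] [NumberField K] [Field F] [NumberField F] [Algebra K F]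

theorem tensor_eq (A B : Matrix (Fin 2) (Fin 2) ℂ) : tensor A B = A ⊗ₖ B := rfl

/-- the matrices of the elements of `Gal(F/K)` -/
noncomputable def mats (χ : Gal(F/K) →* ℂˣ) (ρg ρh : Rep F) :
    Gal(F/K) →* Matrix (Fin 2 × Fin 2) (Fin 2 × Fin 2) ℂ where
  toFun σ := ((χ σ : ℂˣ) : ℂ) • gh ρg ρh σ
  map_one' := by
    have h : overQ (1 : Gal(F/K)) = 1 := rfl
    unfold gh mat
    rw [map_one, Units.val_one, one_smul, h, tensor_eq]
    rw [map_one, map_one]
    exact Matrix.one_kronecker_one
  map_mul' σ τ := by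
    have h : overQ (σ * τ) = overQ σ * overQ τ := rfl
    unfold gh mat
    rw [map_mul, Units.val_mul, h, tensor_eq, tensor_eq, tensor_eq]
    rw [map_mul, map_mul, Units.val_mul, Units.val_mul, Matrix.mul_kronecker_mul, smul_mul_smul_comm]

end

/-- **Beilinson's conjecture for `(f, g, h)`.**  Let `K` be the field of third roots of unity, let `F₀` be
`ℚ(√-3)` or `ℚ(ζ₉)`, let `L/F₀` be a Galois extension whose degree is a power of two, in which above the
prime numbers other than three only primes ramify modulo which `2` is not a cube, and let `F` be a subfield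
of `L` which contains `K` and is Galois over `ℚ`.  Let `z` be a primitive cube root of unity in `K`.  The
Frobenius endomorphisms `π u` of `E : y² + y = x³` modulo the primes `u` of `K` exist, and for ALL
characters `χ` of `Gal(F/K)` and ALL two-dimensional representations `ρ_g`, `ρ_h` of `Gal(F/ℚ)`, Beilinson's
equality holds for the newform `f_χ` and the eigenforms `g`, `h` of weight one with the representations
`ρ_g`, `ρ_h`: both sides are zero. -/
theorem result : ∀ (F₀ L K F : Type) [Field F₀] [NumberField F₀]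
    [Field L] [NumberField L] [Algebra F₀ L] [IsGalois F₀ L] [Field K] [NumberField K]
    [IsCyclotomicExtension {3} ℚ K] [Field F] [NumberField F] [Algebra K F] [IsGalois ℚ F]
    [Algebra F L],
    (IsCyclotomicExtension {3} ℚ F₀ ∨ IsCyclotomicExtension {9} ℚ F₀) →
    (∃ n : ℕ, Module.finrank F₀ L = 2 ^ n) → GoodRam F₀ L →
    ∀ (z : 𝓞 K) (hz : z * z = -1 - z) (w : HeightOneSpectrum (𝓞 K) → HeightOneSpectrum (𝓞 F)),
      Above w →
      ∃ π : HeightOneSpectrum (𝓞 K) → Eis, (∀ u, (3 : 𝓞 K) ∉ u.asIdeal → IsFrobEnd z u (π u)) ∧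
        ∀ (χ : Gal(F/K) →* ℂˣ) (ρg ρh : Rep F), Beilinson hz χ ρg ρh w π := by
  intro F₀ L K F _ _ _ _ _ _ _ _ _ _ _ _ _ _ hF₀ hn hg z hz w hw
  have hG : Pool.Agent.K7.H56.P.Gd F₀ L := Pool.Agent.K7.H56.P.gd_of fun w hw h3 α hα => by
    obtain ⟨σ, hσ, hin⟩ := hw
    refine hg w σ (fun h => h3 ?_) hin hσ α hα
    show algebraMap (𝓞 F₀) (𝓞 L) 3 ∈ w.asIdeal
    rw [map_ofNat]
    exact h
  have hf : Pool.Agent.K7.H70.TW.Fam L := by
    rcases hF₀ with hM | hM
    · exact Pool.Agent.K7.H70.TW.fam3 (M := F₀) hn hG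
    · exact Pool.Agent.K7.H70.TW.fam9 (M := F₀) hn hG
  have hfin : Finite (Pt F) := by
    unfold Pt
    rw [base_eq]
    refine Pool.Agent.K7.H70.TW.fin_change (algebraMap F L) (Pool.Agent.Y696.E0 F) 1
      (V := Pool.Agent.Y696.E0 L) ?_ (Pool.Agent.K7.H70.TW.E0_Δ_ne L) hf.fin
    rw [one_smul]
    exact Pool.Agent.Y696.E0_map _
  have hgal : IsGalois K F := IsGalois.tower_top_of_isGalois ℚ K F
  obtain ⟨π, h1, h2⟩ := Pool.Agent.H503.Psi.final (F₀ := F₀) (L := L) hF₀ hn hG hz (w := w) hw
  refine ⟨π, fun u hu => h1 u hu, fun χ ρg ρh => ?_⟩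
  obtain ⟨U, Φ, g1, g2, g3, g4, g5, g6, g7, g8⟩ := h2 (Fin 2 × Fin 2) (mats χ ρg ρh)
  have hord : analyticOrderAt Φ 1 = 0 := (g6 1 g4).analyticOrderAt_eq_zero.2 g8
  have hdim : dimHom hz χ ρg ρh = 0 := by
    have hs : Subsingleton (MW F) := ⟨fun x y => (tensor_zero x).trans (tensor_zero y).symm⟩
    unfold dimHom dimHoms
    exact Module.finrank_zero_of_subsingleton
  refine ⟨U, Φ, ⟨g1, g2, g3, g4⟩, g5, ⟨g6, fun s hs => ?_⟩, by rw [hord, hdim]; rfl, hord⟩
  have h5 := g7 s hs
  convert h5 using 2 with u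
  unfold factor
  by_cases h : (3 : 𝓞 K) ∈ u.asIdeal
  · rw [if_pos h, if_pos h]
  · rw [if_neg h, if_neg h, toComplex_eq]
    rfl

end Pool.Agent.Results.MP_60ff09_nt.CMFormsWeightOnePairs
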